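import Pool.Agent.Lib_MP_f5471b_p.Unif

/-!
Strong Lang-Silverman lower bound for all `K`-forms of powers of elliptic curves, all
polarisations and all number fields `K`, with constants depending only on `g`, up to the height of
the curve.

Let `E` be an elliptic curve over the number field `K` (Weierstrass equation `W`), `F / K` a finite
Galois extension and `ρ : Gal(F/K) → GL_g(ℤ) = Aut(E ^ g)` an injective homomorphism, that is a
cocycle; it defines a form `A` of `E ^ g` over `K` with
`A(K) = {P ∈ E(F) ^ g | ρ(σ) σ(P) = P for all σ}`. When `E` has no complex multiplication every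
`K`-form of `E ^ g` arises in this way (take for `F` the smallest splitting field). A polarisation
of `A` is a positive definite symmetric integral matrix `M` with `ρ(σ)ᵀ M ρ(σ) = M`; abelian
subvarieties of `A` over `K` are given by the `ρ`-stable saturated sublattices `Λ` of `ℤ ^ g`, of
degree `d! det (M | Λ)`, `d` the rank of `Λ`.

Idea of the proof: geometry of numbers for the dual form of `M` gives, for every subgroup
`I ≠ 1` of the Galois group, a short character `ℓ` of `A` such that either the point `Q = ℓ(P)` of
`E(F)` is moved by an element `σ` of `I`, or alternative (a) holds. If `I` is the inertia group at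
a prime `v` of good reduction of `E`, then `σ Q` and `Q` are congruent modulo `v`, so `v` is a pole
of `x(Q)` or of `x(σ Q - Q)`. Summing over the ramified primes bounds `∑ log N p` by heights
of boundedly many points `ℓ(P)`, hence by the height of `P` for `M`.
-/

namespace Pool.Agent.Lib_MP_f5471b_p.Old.UniformForms

open LangForms NumberField WeierstrassCurve

/-- For every `g ≥ 1` there are `c₁, c₂ > 0` such that for every number field `K`, every elliptic
curve `W` over `K`, every form `A` of `W ^ g`, every polarisation `M` of `A` and every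
`P ∈ A(K)`: either alternative (a) holds with the constant `c₂`, or
`c₁ R ≤ h(P) + c₂ (1 + h(W))`, where `R` is the sum of `log N p / [K : ℚ]` over the primes `p` of
`K` ramified in `F`. The constants do not depend on `K`. -/
theorem result (g : ℕ) (hg : 1 ≤ g) :
    ∃ c₁ c₂ : ℝ, 0 < c₁ ∧ 0 < c₂ ∧ ∀ (K : Type) [Field K] [NumberField K]
    (W : WeierstrassCurve K) [W.IsElliptic]
    (F : Type) [Field F] [NumberField F] [DecidableEq F] [Algebra K F] [IsGalois K F]
    (ρ : (F ≃ₐ[K] F) →* Matrix.GeneralLinearGroup (Fin g) ℤ) (M : Matrix (Fin g) (Fin g) ℤ)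
    (P : Fin g → (W.baseChange F).toAffine.Point),
    Function.Injective ρ → IsPolForm ρ M → IsKPoint ρ P →
    Obstructed ρ M P c₂ ∨ RamLe K F c₁ (ntL M P + c₂ * (1 + hW W)) := by
  obtain ⟨c₁, c₂, h₁, h₂, h⟩ := uniform_lower_bound_abs g hg
  exact ⟨c₁, c₂, h₁, h₂, fun K _ _ W _ F _ _ _ _ _ ρ M P hρ hM hP =>
    h K W F ρ hρ M hM.1 hM.2 P hP⟩

end Pool.Agent.Lib_MP_f5471b_p.Old.UniformForms
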